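import Pool.Agent.W516.MTG.Stm
import Pool.Agent.W516.MTZ.Low

/-!
# The periods of different weights are independent
-/

set_option autoImplicit false
set_option linter.unusedSectionVars false

namespace Pool.Agent.W326.MTG

open Matrix Polynomial Pool.Agent.W516.MTZ Pool.Agent.W516.MTH Pool.Agent.W516.MTG

variable {m X : Type} [Fintype m] [DecidableEq m] [Fintype X] [DecidableEq X]

/-- Coefficients of a period. -/
theorem exists_coeff (M : Motive m X) (p : Matrix m m ℂ) (n : ℕ) {z : ℂ}
    (hz : z ∈ periods M p n) :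
    ∃ c : m → m → ℚ, (∀ i j, c i j ≠ 0 → M.wt j = n) ∧
      z = ∑ i, ∑ j, (c i j : ℂ) * p i j := by
  induction hz using Submodule.span_induction with
  | mem z hz =>
    obtain ⟨i₀, j₀, hj, rfl⟩ := hz
    refine ⟨fun i j => if i = i₀ ∧ j = j₀ then 1 else 0, ?_, ?_⟩
    · intro i j h
      by_cases h' : i = i₀ ∧ j = j₀
      · rw [h'.2, hj]
      · simp [h'] at h
    · rw [Finset.sum_eq_single i₀, Finset.sum_eq_single j₀]
      · simp
      · intro j _ hj
        simp [hj]
      · intro h
        exact absurd (Finset.mem_univ _) h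
      · intro i _ hi
        simp [hi]
      · intro h
        exact absurd (Finset.mem_univ _) h
  | zero => exact ⟨fun _ _ => 0, fun i j h => absurd rfl h, by simp⟩
  | add x y _ _ hx hy =>
    obtain ⟨c, hc, hx⟩ := hx
    obtain ⟨d, hd, hy⟩ := hy
    refine ⟨fun i j => c i j + d i j, ?_, ?_⟩
    · intro i j h
      by_cases h1 : c i j = 0
      · by_cases h2 : d i j = 0
        · exact absurd (by simp [h1, h2]) h
        · exact hd i j h2
      · exact hc i j h1
    · rw [hx, hy, ← Finset.sum_add_distrib]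
      refine Finset.sum_congr rfl fun i _ => ?_
      rw [← Finset.sum_add_distrib]
      refine Finset.sum_congr rfl fun j _ => ?_
      push_cast
      ring
  | smul a x _ hx =>
    obtain ⟨c, hc, hx⟩ := hx
    refine ⟨fun i j => a * c i j, ?_, ?_⟩
    · intro i j h
      exact hc i j (right_ne_zero_of_mul h)
    · rw [hx, Finset.smul_sum]
      refine Finset.sum_congr rfl fun i _ => ?_
      rw [Finset.smul_sum]
      refine Finset.sum_congr rfl fun j _ => ?_
      rw [Rat.smul_def]
      push_cast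
      ring

/-- A polynomial function which vanishes away from zero. -/
theorem coeff_zero (K : Finset ℕ) (z : ℕ → ℂ)
    (h : ∀ μ : ℂ, μ ≠ 0 → ∑ k ∈ K, μ ^ k * z k = 0) : ∀ k ∈ K, z k = 0 := by
  have hP : (∑ k ∈ K, Polynomial.monomial k (z k)) = (0 : ℂ[X]) := by
    apply Polynomial.eq_zero_of_infinite_isRoot
    have h0 : ({0}ᶜ : Set ℂ).Infinite := by
      apply Set.Finite.infinite_compl
      exact Set.finite_singleton 0
    refine h0.mono ?_
    intro μ hμ
    have hμ' : μ ≠ 0 := by simpa using hμ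
    have := h μ hμ'
    simp only [Set.mem_ofPred_eq, Polynomial.IsRoot.def, Polynomial.eval_finsetSum,
      Polynomial.eval_monomial]
    rw [← this]
    exact Finset.sum_congr rfl fun k _ => mul_comm _ _
  intro k hk
  have h1 := congrArg (fun q : ℂ[X] => q.coeff k) hP
  simp only [Polynomial.finsetSum_coeff, Polynomial.coeff_monomial, Polynomial.coeff_zero] at h1
  rwa [Finset.sum_ite_eq' K k, if_pos hk] at h1

theorem T_IND : Pool.Agent.W516.MTG.StInd := by
  intro m X _ _ _ _ M p hp hall
  rw [iSupIndep_iff_finsetSum_eq_zero_imp_eq_zero]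
  intro K v hv hsum
  choose! c hc hcz using fun k (hk : k ∈ K) => exists_coeff M (p : Matrix m m ℂ) k (hv k hk)
  apply coeff_zero K v
  intro μ hμ
  have hg : p * dg M (Units.mk0 μ hμ) ∈ M.gp := Subgroup.mul_mem _ hp (dg_mem M _)
  have e1 : ∑ k ∈ K, v k = ∑ k ∈ K, ∑ i, ∑ j, (c k i j : ℂ) * (p : Matrix m m ℂ) i j :=
    Finset.sum_congr rfl hcz
  have e2 : ∑ k ∈ K, μ ^ k * v k =
      ∑ k ∈ K, μ ^ k * ∑ i, ∑ j, (c k i j : ℂ) * (p : Matrix m m ℂ) i j :=
    Finset.sum_congr rfl fun k hk => by rw [hcz k hk]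
  have e3 : ∀ i j, ((p * dg M (Units.mk0 μ hμ) : (Matrix m m ℂ)ˣ) : Matrix m m ℂ) i j =
      (p : Matrix m m ℂ) i j * μ ^ M.wt j := by
    intro i j
    rw [Units.val_mul, dg_val, mul_diagonal, Units.val_mk0]
  have h1 := hall _ hg (fun i j => ∑ k ∈ K, c k i j) (by
    rw [← hsum, e1, Finset.sum_comm (s := K)]
    refine Finset.sum_congr rfl fun i _ => ?_
    rw [Finset.sum_comm (s := K)]
    refine Finset.sum_congr rfl fun j _ => ?_
    push_cast
    rw [Finset.sum_mul])
  rw [← h1, e2]
  simp only [Finset.mul_sum]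
  rw [Finset.sum_comm]
  refine Finset.sum_congr rfl fun i _ => ?_
  rw [Finset.sum_comm]
  refine Finset.sum_congr rfl fun j _ => ?_
  rw [e3 i j]
  push_cast
  rw [Finset.sum_mul]
  refine Finset.sum_congr rfl fun k hk => ?_
  by_cases h0 : c k i j = 0
  · simp [h0]
  · rw [hc k hk i j h0]
    ring

end Pool.Agent.W326.MTG

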